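import Pool.Agent.IAH.Gen

/-!
# The lower bound for the weak degree of the stable homology of `IA`-groups

`HIA k d` is the functor `H_d(IA; k)` on `S(ℤ)`, and `WPol m F` says that the image of `F` in the
quotient of the functor category by the stably null functors lies in `Pol_{m - 1}`.
-/

namespace Pool.Agent.Results.MP_e9356f_al.LowerBound

open Pool.Agent.IAH

/-- For every nonzero commutative ring `k` and every `d`, the functor `H_d(IA; k)` is not in
`Pol_{3d - 1}`. -/
theorem result (k : Type) [CommRing k] [Nontrivial k] (d : ℕ) : ¬ WPol (3 * d) (HIA k d) :=
  not_wpol_HIA k d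

end Pool.Agent.Results.MP_e9356f_al.LowerBound
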