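import Pool.Agent.IAH.StepF

/-!
# The torus part of the stable homology of `IA`-groups has weak degree exactly `3d`

`HIA k d` is the functor `H_d(IA; k)` on `S(ℤ)`, and `torFun k d` is its subfunctor generated by
the classes of the standard tori. `WPol m F` says that the image of `F` in the quotient of the
functor category by the stably null functors lies in `Pol_{m - 1}`.
-/

namespace Pool.Agent.Results.MP_e9356f_al.TorusPart

open Pool.Agent.IAH

/-- For every nonzero commutative ring `k` and every `d`, the subfunctor of `H_d(IA; k)` generated
by the classes of the standard tori has weak degree exactly `3d`. -/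
theorem result (k : Type) [CommRing k] [Nontrivial k] (d : ℕ) :
    WPol (3 * d + 1) (torFun k d) ∧ ¬ WPol (3 * d) (torFun k d) :=
  ⟨wpol_torFun k d, not_wpol_torFun k d⟩

end Pool.Agent.Results.MP_e9356f_al.TorusPart
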